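import Pool.Agent.Helper79.LH.Mul
import Mathlib

/-! Package F: cyclotomic factors of random polynomials with coefficients `0, 1`. -/

open Finset Filter

namespace Pool.Agent.Helper79.LC

namespace F

theorem totient_odd : ∀ n : ℕ, Odd n → n ≤ n.totient ^ 2 := by
  intro n
  induction n using Nat.recOnPosPrimePosCoprime with
  | prime_pow p k hp hk =>
    intro ho
    have hp3 : 3 ≤ p := by
      rcases hp.eq_two_or_odd' with h | h
      · exfalso
        subst h
        rw [Nat.odd_pow_iff hk.ne'] at ho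
        exact absurd ho (by decide)
      · have := hp.two_le
        rcases Nat.lt_or_ge 2 p with h' | h'
        · exact h'
        · have : p = 2 := by omega
          subst this
          exact absurd h (by decide)
    obtain ⟨k, rfl⟩ : ∃ j, k = j + 1 := ⟨k - 1, by omega⟩
    rw [Nat.totient_prime_pow_succ hp, mul_pow, ← pow_mul, pow_succ]
    obtain ⟨r, rfl⟩ : ∃ r, p = r + 1 := ⟨p - 1, by omega⟩
    rw [Nat.add_sub_cancel]
    refine Nat.mul_le_mul ?_ ?_
    · exact Nat.pow_le_pow_right (by omega) (by omega)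
    · nlinarith
  | zero =>
    intro ho
    exact absurd ho (by decide)
  | one =>
    intro _
    simp
  | coprime a b ha hb hab iha ihb =>
    intro ho
    rw [Nat.odd_mul] at ho
    rw [Nat.totient_mul hab, mul_pow]
    exact Nat.mul_le_mul (iha ho.1) (ihb ho.2)

theorem totient_lower (n : ℕ) : n ≤ 2 * n.totient ^ 2 := by
  rcases Nat.eq_zero_or_pos n with rfl | hn
  · simp
  obtain ⟨k, m, hm, rfl⟩ := Nat.exists_eq_two_pow_mul_odd hn.ne'
  have h1 := totient_odd m hm
  have h2 : Nat.Coprime (2 ^ k) m := by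
    refine Nat.Coprime.pow_left k ?_
    rwa [Nat.coprime_two_left]
  rw [Nat.totient_mul h2, mul_pow]
  have h3 : 2 ^ k ≤ 2 * (2 ^ k).totient ^ 2 := by
    rcases Nat.eq_zero_or_pos k with rfl | hk
    · simp
    · obtain ⟨j, rfl⟩ : ∃ j, k = j + 1 := ⟨k - 1, by omega⟩
      rw [Nat.totient_prime_pow_succ Nat.prime_two, mul_pow, ← pow_mul]
      rw [pow_succ, mul_comm]
      refine Nat.mul_le_mul le_rfl ?_
      rw [show (2 - 1) ^ 2 = 1 by norm_num, mul_one]
      exact Nat.pow_le_pow_right (by omega) (by omega)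
  calc 2 ^ k * m ≤ (2 * (2 ^ k).totient ^ 2) * m.totient ^ 2 := Nat.mul_le_mul h3 h1
    _ = _ := by ring

lemma pow_four_le (m : ℕ) : m ^ 4 ≤ 32 * 2 ^ m := by
  induction m with
  | zero => norm_num
  | succ m ih =>
    rcases Nat.lt_or_ge m 8 with h | h
    · interval_cases m <;> norm_num
    · have h1 : (m + 1) ^ 4 ≤ 2 * m ^ 4 := by
        obtain ⟨r, rfl⟩ : ∃ r, m = r + 8 := ⟨m - 8, by omega⟩
        ring_nf
        nlinarith [sq_nonneg r, Nat.zero_le (r ^ 3), Nat.zero_le (r ^ 4), Nat.zero_le r]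
      calc (m + 1) ^ 4 ≤ 2 * m ^ 4 := h1
        _ ≤ 2 * (32 * 2 ^ m) := Nat.mul_le_mul le_rfl ih
        _ = _ := by ring

/-- the dominating sequence -/
noncomputable def bd (k : ℕ) : ℝ := 2 * (1 / 2 : ℝ) ^ k.totient

lemma bd_le (k : ℕ) (hk : k ≠ 0) : bd k ≤ 256 * (1 / (k : ℝ) ^ 2) := by
  have h1 := totient_lower k
  have h2 := pow_four_le k.totient
  have hk0 : (0 : ℝ) < k := by exact_mod_cast Nat.pos_of_ne_zero hk
  have h3 : (k : ℝ) ≤ 2 * (k.totient : ℝ) ^ 2 := by exact_mod_cast h1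
  have h4 : (k.totient : ℝ) ^ 4 ≤ 32 * 2 ^ k.totient := by exact_mod_cast h2
  have h5 : (k : ℝ) ^ 2 ≤ 128 * 2 ^ k.totient := by
    calc (k : ℝ) ^ 2 ≤ (2 * (k.totient : ℝ) ^ 2) ^ 2 := by gcongr
      _ = 4 * (k.totient : ℝ) ^ 4 := by ring
      _ ≤ 4 * (32 * 2 ^ k.totient) := by gcongr
      _ = _ := by ring
  have h6 : (0 : ℝ) < 2 ^ k.totient := by positivity
  rw [bd, one_div, inv_pow, mul_one_div, ← div_eq_mul_inv, div_le_div_iff₀ h6 (by positivity)]
  nlinarith

lemma summable_bd : Summable bd := by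
  have h1 : Summable fun k : ℕ => 256 * (1 / ((k : ℝ)) ^ 2) :=
    (Real.summable_one_div_nat_pow.mpr (by norm_num)).mul_left _
  refine Summable.of_norm_bounded_eventually_nat (g := fun k : ℕ => 256 * (1 / ((k : ℝ)) ^ 2)) h1 ?_
  filter_upwards [eventually_ge_atTop 1] with k hk
  have h2 : 0 ≤ bd k := by rw [bd]; positivity
  rw [Real.norm_of_nonneg h2]
  exact bd_le k (by omega)

open Classical in
/-- the sets `S` such that `Φ_k` divides the polynomial -/
noncomputable def bad (n k : ℕ) : Finset (Finset ℕ) :=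
  (Ioo 0 n).powerset.filter fun S => Polynomial.cyclotomic k ℤ ∣ pol n S

lemma bad_eq_empty {n k : ℕ} (hn : 1 ≤ n) (hk : n < k.totient) : bad n k = ∅ := by
  classical
  rw [bad, filter_eq_empty_iff]
  intro S hS hd
  have hS' := mem_powerset.mp hS
  have h1 := Polynomial.natDegree_le_of_dvd hd (pol_ne_zero hn hS')
  rw [natDegree_pol hn hS', Polynomial.natDegree_cyclotomic] at h1
  omega

lemma bad_le_bd {n k : ℕ} (hn : 1 ≤ n) : (#(bad n k) : ℝ) / 2 ^ (n - 1) ≤ bd k := by
  classical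
  rcases Nat.lt_or_ge n k.totient with h | h
  · rw [bad_eq_empty hn h, card_empty, Nat.cast_zero, zero_div, bd]
    positivity
  · have h1 : #(bad n k) ≤ 2 ^ (n - k.totient) := by
      have := card_mult (n := n) (Polynomial.cyclotomic k ℤ)
      rw [Polynomial.natDegree_cyclotomic] at this
      refine le_trans (le_of_eq ?_) this
      rw [bad]
    have h2 : (#(bad n k) : ℝ) ≤ 2 ^ (n - k.totient) := by exact_mod_cast h1
    have e1 : (2 : ℝ) ^ (n - 1) * 2 = 2 ^ n := by
      rw [← pow_succ]; congr 1; omega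
    have e2 : (2 : ℝ) ^ (n - k.totient) * 2 ^ k.totient = 2 ^ n := by
      rw [← pow_add]; congr 1; omega
    rw [div_le_iff₀ (by positivity), bd, one_div, inv_pow]
    have h3 : (0 : ℝ) < 2 ^ k.totient := by positivity
    calc (#(bad n k) : ℝ) ≤ 2 ^ (n - k.totient) := h2
      _ = 2 * ((2 : ℝ) ^ k.totient)⁻¹ * 2 ^ (n - 1) := by
        field_simp
        rw [e2, mul_comm, e1]

/-- the normalised central binomial coefficient -/
noncomputable def cb (m : ℕ) : ℝ := (Nat.centralBinom m : ℝ) / 4 ^ m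

lemma cb_sq (m : ℕ) : cb m ^ 2 * (2 * m + 1) ≤ 1 := by
  induction m with
  | zero => simp [cb]
  | succ m ih =>
    have h1 : cb (m + 1) * (2 * (m + 1)) = cb m * (2 * m + 1) := by
      have h2 := Nat.succ_mul_centralBinom_succ m
      have h3 : ((m : ℝ) + 1) * Nat.centralBinom (m + 1) = 2 * (2 * m + 1) * Nat.centralBinom m := by
        exact_mod_cast h2
      rw [cb, cb, pow_succ]
      field_simp
      linarith
    have h4 : (0 : ℝ) < 2 * ((m : ℝ) + 1) := by positivity
    have h5 : cb (m + 1) = cb m * (2 * m + 1) / (2 * (m + 1)) := by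
      rw [← h1]; field_simp
    rw [h5]
    push_cast
    have h6 : (cb m * (2 * m + 1) / (2 * (m + 1))) ^ 2 * (2 * ((m : ℝ) + 1) + 1) =
        (cb m ^ 2 * (2 * m + 1)) * (((2 * m + 1) * (2 * (m + 1) + 1)) / (2 * (m + 1)) ^ 2) := by
      field_simp
    rw [h6]
    have h7 : ((2 * (m : ℝ) + 1) * (2 * (m + 1) + 1)) / (2 * (m + 1)) ^ 2 ≤ 1 := by
      rw [div_le_one (by positivity)]
      nlinarith
    have h8 : 0 ≤ ((2 * (m : ℝ) + 1) * (2 * (m + 1) + 1)) / (2 * (m + 1)) ^ 2 := by positivity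
    have h9 : 0 ≤ cb m ^ 2 * (2 * (m : ℝ) + 1) := by positivity
    calc _ ≤ 1 * 1 := mul_le_mul ih h7 h8 (by norm_num)
      _ = 1 := one_mul 1

lemma cb_nonneg (m : ℕ) : 0 ≤ cb m := by rw [cb]; positivity

lemma cb_tendsto : Tendsto cb atTop (nhds 0) := by
  have h1 : Tendsto (fun m : ℕ => √(1 / (2 * (m : ℝ) + 1))) atTop (nhds 0) := by
    rw [← Real.sqrt_zero]
    apply (Real.continuous_sqrt.tendsto 0).comp
    have h2 : Tendsto (fun m : ℕ => 2 * (m : ℝ) + 1) atTop atTop := by
      apply tendsto_atTop_add_const_right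
      exact (tendsto_natCast_atTop_atTop).const_mul_atTop (by norm_num)
    have h3 := h2.inv_tendsto_atTop
    refine h3.congr fun m => ?_
    rw [Pi.inv_apply, one_div]
  refine squeeze_zero cb_nonneg (fun m => ?_) h1
  apply Real.le_sqrt_of_sq_le
  have := cb_sq m
  rw [le_div_iff₀ (by positivity)]
  exact this

lemma choose_le (N j : ℕ) : (Nat.choose N j : ℝ) ≤ cb (N / 2) * 2 ^ N := by
  set m := N / 2 with hm
  have h0 : ∀ i, (Nat.choose (2 * m) i : ℝ) ≤ cb m * 2 ^ (2 * m) := by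
    intro i
    have h1 := Nat.choose_le_centralBinom i m
    have h2 : (Nat.choose (2 * m) i : ℝ) ≤ Nat.centralBinom m := by exact_mod_cast h1
    rw [cb, pow_mul]
    norm_num
    exact h1
  rcases Nat.even_or_odd' N with ⟨r, hr | hr⟩
  · have : r = m := by omega
    rw [hr, this]; exact h0 j
  · have hrm : r = m := by omega
    rw [hr, hrm]
    rcases j with _ | j
    · have := h0 0
      rw [Nat.choose_zero_right] at this ⊢
      rw [pow_succ]
      have h3 : 0 ≤ cb m * 2 ^ (2 * m) := mul_nonneg (cb_nonneg m) (by positivity)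
      linarith
    · rw [Nat.choose_succ_succ]
      have h3 := h0 j
      have h4 := h0 (j + 1)
      push_cast
      rw [pow_succ]
      linarith

/-- the value at a primitive root of unity -/
lemma eval_pol (n : ℕ) (S : Finset ℕ) (ζ : ℂ) :
    ((pol n S).map (Int.castRingHom ℂ)).eval ζ = ζ ^ n + 1 + ∑ i ∈ S, ζ ^ i := by
  rw [pol]
  simp [Polynomial.eval_finsetSum, Polynomial.map_sum]

open Classical in
/-- For a fixed `k` the number of `S` is small. -/
lemma bad_le_choose {n k : ℕ} (hn : 1 ≤ n) (hk : 1 ≤ k) :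
    (#(bad n k) : ℝ) / 2 ^ (n - 1) ≤ cb ((n - 1) / k / 2) := by
  set M : Finset ℕ := (Ioo 0 n).filter fun i => k ∣ i with hM
  set N := (n - 1) / k with hN
  have hIoo : Ioo 0 n = Ioc 0 (n - 1) := by
    ext i; rw [mem_Ioo, mem_Ioc]; omega
  have hMc : #M = N := by
    rw [hM, hIoo, Nat.Ioc_filter_dvd_card_eq_div]
  have hNn : N ≤ n - 1 := Nat.div_le_self _ _
  set ζ : ℂ := Complex.exp (2 * Real.pi * Complex.I / k) with hζ
  have hp : IsPrimitiveRoot ζ k := Complex.isPrimitiveRoot_exp k (by omega)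
  have hroot : ∀ S ∈ bad n k, ζ ^ n + 1 + ∑ i ∈ S, ζ ^ i = 0 := by
    intro S hS
    rw [← eval_pol]
    obtain ⟨q, hq⟩ := (mem_filter.mp hS).2
    rw [hq, Polynomial.map_mul, Polynomial.eval_mul, Polynomial.map_cyclotomic]
    have h1 := hp.isRoot_cyclotomic (by omega)
    rw [Polynomial.IsRoot] at h1
    rw [h1, zero_mul]
  have hsplit : ∀ S ∈ bad n k, ζ ^ n + 1 + ∑ i ∈ S \ M, ζ ^ i + (#(S ∩ M) : ℂ) = 0 := by
    intro S hS
    have h0 : ∑ i ∈ S, ζ ^ i = ∑ i ∈ S \ M, ζ ^ i + ∑ i ∈ S ∩ M, ζ ^ i := by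
      rw [add_comm]
      exact (sum_inter_add_sum_sdiff S M (fun i => ζ ^ i)).symm
    rw [← hroot S hS, h0, ← add_assoc]
    congr 1
    rw [Finset.card_eq_sum_ones, Nat.cast_sum]
    refine sum_congr rfl fun i hi => ?_
    obtain ⟨j, rfl⟩ := (mem_filter.mp (mem_inter.mp hi).2).2
    rw [pow_mul, hp.pow_eq_one, one_pow, Nat.cast_one]
  set c : ℝ := cb (N / 2) * 2 ^ N with hc
  have hfib : ∀ R ∈ (bad n k).image (fun S => S \ M),
      (#((bad n k).filter fun S => S \ M = R) : ℝ) ≤ c := by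
    intro R hR
    obtain ⟨S₀, hS₀, rfl⟩ := mem_image.mp hR
    have h1 : #((bad n k).filter fun S => S \ M = S₀ \ M) ≤ #(powersetCard #(S₀ ∩ M) M) := by
      apply card_le_card_of_injOn (fun S => S ∩ M)
      · intro S hS
        obtain ⟨h2, h3⟩ := mem_filter.mp (mem_coe.mp hS)
        rw [mem_coe, mem_powersetCard]
        refine ⟨inter_subset_right, ?_⟩
        have h4 := hsplit S h2
        have h5 := hsplit S₀ hS₀
        rw [h3] at h4
        have h6 : (#(S ∩ M) : ℂ) = (#(S₀ ∩ M) : ℂ) := by linear_combination h4 - h5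
        exact_mod_cast h6
      · intro S hS S' hS' hSS
        have h3 := (mem_filter.mp (mem_coe.mp hS)).2
        have h3' := (mem_filter.mp (mem_coe.mp hS')).2
        have h4 : S ∩ M = S' ∩ M := hSS
        rw [← sdiff_union_inter S M, ← sdiff_union_inter S' M, h3, h3', h4]
    rw [card_powersetCard, hMc] at h1
    calc (#((bad n k).filter fun S => S \ M = S₀ \ M) : ℝ) ≤ (Nat.choose N #(S₀ ∩ M) : ℝ) := by
          exact_mod_cast h1
      _ ≤ c := choose_le _ _
  have himg : #((bad n k).image (fun S => S \ M)) ≤ 2 ^ (n - 1 - N) := by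
    have h1 : (bad n k).image (fun S => S \ M) ⊆ ((Ioo 0 n) \ M).powerset := by
      intro R hR
      obtain ⟨S, hS, rfl⟩ := mem_image.mp hR
      rw [mem_powerset]
      exact sdiff_subset_sdiff (mem_powerset.mp (mem_filter.mp hS).1) (Subset.refl _)
    refine (card_le_card h1).trans ?_
    rw [card_powerset, card_sdiff_of_subset (filter_subset _ _), hMc, Nat.card_Ioo]
    simp
  have hsum : (#(bad n k) : ℝ) = ∑ R ∈ (bad n k).image (fun S => S \ M),
      (#((bad n k).filter fun S => S \ M = R) : ℝ) := by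
    rw [← Nat.cast_sum, ← card_eq_sum_card_image]
  have hc0 : 0 ≤ c := mul_nonneg (cb_nonneg _) (by positivity)
  have hfin : (#(bad n k) : ℝ) ≤ 2 ^ (n - 1 - N) * c := by
    rw [hsum]
    calc _ ≤ ∑ _R ∈ (bad n k).image (fun S => S \ M), c := sum_le_sum hfib
      _ = #((bad n k).image (fun S => S \ M)) * c := by rw [sum_const, nsmul_eq_mul]
      _ ≤ _ := by
        have : (#((bad n k).image (fun S => S \ M)) : ℝ) ≤ 2 ^ (n - 1 - N) := by exact_mod_cast himg
        gcongr
  rw [div_le_iff₀ (by positivity)]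
  refine hfin.trans (le_of_eq ?_)
  rw [hc, mul_comm, mul_assoc, ← pow_add]
  congr 2
  omega

lemma bad_tendsto {k : ℕ} (hk : 1 ≤ k) :
    Tendsto (fun n : ℕ => (#(bad n k) : ℝ) / 2 ^ (n - 1)) atTop (nhds 0) := by
  have h1 : Tendsto (fun n : ℕ => (n - 1) / k / 2) atTop atTop := by
    have h2 : Tendsto (fun n : ℕ => n - 1) atTop atTop := tendsto_sub_atTop_nat 1
    have h3 : ∀ r : ℕ, 1 ≤ r → Tendsto (fun n : ℕ => n / r) atTop atTop := fun r hr =>
      Nat.tendsto_div_const_atTop (by omega)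
    exact (h3 2 (by norm_num)).comp ((h3 k hk).comp h2)
  refine squeeze_zero' (Eventually.of_forall fun n => by positivity) ?_ (cb_tendsto.comp h1)
  filter_upwards [eventually_ge_atTop 1] with n hn
  exact bad_le_choose hn hk

end F

open F in
/-- PACKAGE F (cyclotomic factors). -/
theorem cyc_part : Tendsto (fun n : ℕ => (({S : Finset ℕ | S ⊆ Ioo 0 n ∧
      ∃ k, 2 ≤ k ∧ Polynomial.cyclotomic k ℤ ∣ pol n S} : Set (Finset ℕ)).ncard : ℝ) /
        (2 : ℝ) ^ (n - 1)) atTop (nhds 0) := by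
  classical
  set f : ℕ → ℕ → ℝ := fun n k => if 2 ≤ k then (#(bad n k) : ℝ) / 2 ^ (n - 1) else 0 with hf
  have hf0 : ∀ n k, 0 ≤ f n k := by
    intro n k
    rw [hf]; dsimp only
    split_ifs <;> positivity
  have hfb : ∀ n k, 1 ≤ n → f n k ≤ bd k := by
    intro n k hn
    rw [hf]; dsimp only
    split_ifs with h
    · exact bad_le_bd hn
    · rw [bd]; positivity
  have hlim : Tendsto (fun n => ∑' k, f n k) atTop (nhds (∑' _k : ℕ, (0 : ℝ))) := by
    apply tendsto_tsum_of_dominated_convergence summable_bd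
    · intro k
      by_cases hk : 2 ≤ k
      · have : (fun n => f n k) = fun n => (#(bad n k) : ℝ) / 2 ^ (n - 1) := by
          funext n; rw [hf]; dsimp only; rw [if_pos hk]
        rw [this]
        exact bad_tendsto (by omega)
      · have : (fun n => f n k) = fun _ => (0 : ℝ) := by
          funext n; rw [hf]; dsimp only; rw [if_neg hk]
        rw [this]
        exact tendsto_const_nhds
    · filter_upwards [eventually_ge_atTop 1] with n hn
      intro k
      rw [Real.norm_of_nonneg (hf0 n k)]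
      exact hfb n k hn
  rw [tsum_zero] at hlim
  refine squeeze_zero' (Eventually.of_forall fun n => by positivity) ?_ hlim
  filter_upwards [eventually_ge_atTop 1] with n hn
  set K : ℕ := 2 * n ^ 2 + 1 with hK
  have hsub : {S : Finset ℕ | S ⊆ Ioo 0 n ∧ ∃ k, 2 ≤ k ∧ Polynomial.cyclotomic k ℤ ∣ pol n S} ⊆
      ((((range K).filter fun k => 2 ≤ k).biUnion fun k => bad n k : Finset (Finset ℕ)) :
        Set (Finset ℕ)) := by
    rintro S ⟨hS, k, hk, hd⟩
    rw [mem_coe, mem_biUnion]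
    have h1 := Polynomial.natDegree_le_of_dvd hd (pol_ne_zero hn hS)
    rw [natDegree_pol hn hS, Polynomial.natDegree_cyclotomic] at h1
    have h2 := totient_lower k
    refine ⟨k, mem_filter.mpr ⟨mem_range.mpr ?_, hk⟩, ?_⟩
    · have : k.totient ^ 2 ≤ n ^ 2 := Nat.pow_le_pow_left h1 2
      omega
    · rw [bad, mem_filter, mem_powerset]
      exact ⟨hS, hd⟩
  have h1 : (({S : Finset ℕ | S ⊆ Ioo 0 n ∧
      ∃ k, 2 ≤ k ∧ Polynomial.cyclotomic k ℤ ∣ pol n S} : Set (Finset ℕ)).ncard : ℝ) ≤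
      ∑ k ∈ (range K).filter (fun k => 2 ≤ k), (#(bad n k) : ℝ) := by
    have h2 := Set.ncard_le_ncard hsub (Finset.finite_toSet _)
    rw [Set.ncard_coe_finset] at h2
    have h3 := h2.trans card_biUnion_le
    exact_mod_cast h3
  calc _ ≤ (∑ k ∈ (range K).filter (fun k => 2 ≤ k), (#(bad n k) : ℝ)) / 2 ^ (n - 1) := by gcongr
    _ = ∑ k ∈ range K, f n k := by
      rw [sum_div, sum_filter]
    _ ≤ ∑' k, f n k := by
      apply Summable.sum_le_tsum _ (fun k _ => hf0 n k)
      exact Summable.of_nonneg_of_le (hf0 n) (fun k => hfb n k hn) summable_bd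

end Pool.Agent.Helper79.LC
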