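import Pool.Agent.Helper79.LG.Kraft
import Mathlib

/-! Package L: the number of integer vectors with small `ℓ¹` norm. -/

open Finset Filter

namespace Pool.Agent.Helper79.LC

/-- PACKAGE L (number of integer vectors with small `ℓ¹` norm). -/
theorem lattice_count {N : ℕ} {Q μ : ℝ} (hμ : 0 < μ) (G : Finset (Fin N → ℤ))
    (hG : ∀ m ∈ G, (∑ b, |(m b : ℝ)|) ≤ Q) :
    (#G : ℝ) ≤ Real.exp (μ * Q) * ((1 + Real.exp (-μ)) / (1 - Real.exp (-μ))) ^ N := by
  classical
  set θ : ℝ := Real.exp (-μ) with hθ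
  have h0 : 0 < θ := Real.exp_pos _
  have h1 : θ < 1 := by rw [hθ]; exact Real.exp_lt_one_iff.mpr (by linarith)
  have key : ∀ m ∈ G, (1 : ℝ) ≤ Real.exp (μ * Q) * ∏ b, θ ^ (m b).natAbs := by
    intro m hm
    have e1 : ∏ b, θ ^ (m b).natAbs = Real.exp (-(μ * ∑ b, |(m b : ℝ)|)) := by
      rw [mul_sum, ← sum_neg_distrib, Real.exp_sum]
      refine prod_congr rfl fun b _ => ?_
      rw [hθ, ← Real.exp_nat_mul, Nat.cast_natAbs]
      congr 1; push_cast; ring
    rw [e1, ← Real.exp_add]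
    apply Real.one_le_exp
    have := hG m hm
    nlinarith
  calc (#G : ℝ) = ∑ m ∈ G, (1 : ℝ) := by simp
    _ ≤ ∑ m ∈ G, Real.exp (μ * Q) * ∏ b, θ ^ (m b).natAbs := sum_le_sum key
    _ = Real.exp (μ * Q) * ∑ m ∈ G, ∏ b, θ ^ (m b).natAbs := by rw [mul_sum]
    _ ≤ Real.exp (μ * Q) *
          ∑ m ∈ Fintype.piFinset (fun b => G.image fun m => m b), ∏ b, θ ^ (m b).natAbs := by
        gcongr
        intro m hm
        rw [Fintype.mem_piFinset]
        intro b
        exact mem_image.mpr ⟨m, hm, rfl⟩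
    _ = Real.exp (μ * Q) * ∏ b : Fin N, ∑ z ∈ G.image (fun m => m b), θ ^ z.natAbs := by
        rw [Finset.prod_univ_sum]
    _ ≤ Real.exp (μ * Q) * ∏ b : Fin N, ((1 + θ) / (1 - θ)) := by
        gcongr with b _
        exact geo_int h0 h1 _
    _ = _ := by rw [prod_const, card_univ, Fintype.card_fin]

end Pool.Agent.Helper79.LC
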